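import Pool.Agent.Helper74.FP.Goals

/-!
# FP-F4: minor models of free products
-/

set_option autoImplicit false

namespace Pool.Agent.Helper66.FP

open Pool.Agent.Helper52.Wq2 Pool.Agent.Helper61.NW Pool.Agent.Helper74.FP Monoid

universe u

theorem cayL_adj {Γ : Type u} [Group Γ] {S : Set Γ} {x y : Γ} :
    (cayL S).Adj x y ↔ x ≠ y ∧ (y * x⁻¹ ∈ S ∨ x * y⁻¹ ∈ S) := by
  unfold cayL
  rw [SimpleGraph.fromRel_adj]

/-- Right translates of a factor. -/
theorem part_adj {ι : Type} {B : ι → Type u} [∀ i, Group (B i)] (T : ∀ i, Set (B i)) {i : ι}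
    {b b' : B i} (h : (cayL (T i)).Adj b b') (y : CoprodI B) :
    (cayL (US T)).Adj (CoprodI.of b * y) (CoprodI.of b' * y) := by
  rw [cayL_adj] at h ⊢
  refine ⟨fun he => h.1 (CoprodI.of_injective i (mul_right_cancel he)), ?_⟩
  have e : ∀ b b' : B i, CoprodI.of b' * y * (CoprodI.of b * y)⁻¹ =
      (CoprodI.of (b' * b⁻¹) : CoprodI B) := by
    intro b b'
    rw [mul_inv_rev, map_mul, map_inv]
    group
  rcases h.2 with h1 | h1
  · exact Or.inl ⟨i, _, h1, e b b'⟩
  · exact Or.inr ⟨i, _, h1, e b' b⟩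

theorem f4 : F4Stmt.{u} := by
  intro ι A B _ _ S T V hS hT hM hV1
  classical
  -- representatives
  have hr : ∀ i, ∃ r : A i → B i, r 1 = 1 ∧ ∀ a, r a ∈ V i a := by
    intro i
    have hne : ∀ a, ∃ b, b ∈ V i a := fun a => ((hM i).1 a).1
    choose r hr using hne
    refine ⟨fun a => if a = 1 then 1 else r a, if_pos rfl, ?_⟩
    intro a
    by_cases ha : a = 1
    · subst ha
      simp only [if_true]
      exact hV1 i
    · simp only [if_neg ha]
      exact hr a
  choose r hr1 hrV using hr
  have hα : ∀ i, ∃ α : B i → A i, ∀ a, ∀ b ∈ V i a, α b = a := by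
    intro i
    refine ⟨fun b => if h : ∃ a, b ∈ V i a then h.choose else 1, ?_⟩
    intro a b hb
    have h : ∃ a, b ∈ V i a := ⟨a, hb⟩
    simp only [dif_pos h]
    exact (hM i).2.1 _ _ b h.choose_spec hb
  choose α hα using hα
  -- words
  let f : CoprodI.Word A → CoprodI.Word B := fun w =>
    { toList := w.toList.map (fun l => ⟨l.1, r l.1 l.2⟩)
      ne_one := by
        intro l hl
        obtain ⟨l', hl', rfl⟩ := List.mem_map.1 hl
        intro h
        have h0 : r l'.1 l'.2 = 1 := h
        have h1 : (1 : B l'.1) ∈ V l'.1 l'.2 := h0 ▸ hrV l'.1 l'.2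
        exact w.ne_one l' hl' ((hM l'.1).2.1 _ _ 1 h1 (hV1 l'.1))
      chain_ne := by
        rw [List.isChain_map]
        exact w.chain_ne }
  let D : CoprodI.Word B → CoprodI A := fun w =>
    (w.toList.map (fun l => (CoprodI.of (α l.1 l.2) : CoprodI A))).prod
  have hfidx : ∀ w : CoprodI.Word A, (f w).fstIdx = w.fstIdx := by
    intro w
    change ((w.toList.map (fun l => (⟨l.1, r l.1 l.2⟩ : Σ i, B i))).head?.map Sigma.fst) =
      w.toList.head?.map Sigma.fst
    cases w.toList with
    | nil => rfl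
    | cons a t => rfl
  have hDf : ∀ w : CoprodI.Word A, D (f w) = w.prod := by
    intro w
    change ((w.toList.map (fun l => (⟨l.1, r l.1 l.2⟩ : Σ i, B i))).map
      (fun l => (CoprodI.of (α l.1 l.2) : CoprodI A))).prod =
      (w.toList.map fun l => CoprodI.of l.snd).prod
    rw [List.map_map]
    congr 1
    refine List.map_congr_left ?_
    intro l _
    change (CoprodI.of (α l.1 (r l.1 l.2)) : CoprodI A) = CoprodI.of l.2
    rw [hα l.1 l.2 _ (hrV l.1 l.2)]
  have hα1 : ∀ i, α i 1 = 1 := fun i => hα i 1 1 (hV1 i)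
  have hDcons : ∀ (i : ι) (p : CoprodI.Word.Pair B i),
      D (CoprodI.Word.rcons p) = CoprodI.of (α i p.head) * D p.tail := by
    intro i p
    unfold CoprodI.Word.rcons
    split_ifs with h
    · rw [h, hα1, map_one, one_mul]
    · rfl
  have hprod : ∀ (i : ι) (w : CoprodI.Word A), (f w).prod =
      CoprodI.of (r i (CoprodI.Word.equivPair i w).head) *
        (f (CoprodI.Word.equivPair i w).tail).prod := by
    intro i w
    obtain ⟨p, rfl⟩ := (CoprodI.Word.equivPair i).symm.surjective w
    rw [Equiv.apply_symm_apply, CoprodI.Word.equivPair_symm]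
    unfold CoprodI.Word.rcons
    split_ifs with h
    · rw [h, hr1, map_one, one_mul]
    · rfl
  -- the branch sets
  let φ : CoprodI A → Set (CoprodI B) := fun g =>
    {y | y = (f (CoprodI.Word.equiv g)).prod ∨
      ∃ i, ∃ b ∈ V i (CoprodI.Word.equivPair i (CoprodI.Word.equiv g)).head,
        y = CoprodI.of b *
          (f (CoprodI.Word.equivPair i (CoprodI.Word.equiv g)).tail).prod}
  have hdec : ∀ g y, y ∈ φ g → D (CoprodI.Word.equiv y) = g := by
    intro g y hy
    have hg : (CoprodI.Word.equiv g).prod = g := CoprodI.Word.equiv.symm_apply_apply g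
    rcases hy with rfl | ⟨i, b, hb, rfl⟩
    · have h1 : CoprodI.Word.equiv (f (CoprodI.Word.equiv g)).prod =
          f (CoprodI.Word.equiv g) := CoprodI.Word.equiv.apply_symm_apply _
      rw [h1, hDf, hg]
    · set p := CoprodI.Word.equivPair i (CoprodI.Word.equiv g) with hp
      have h1 : (CoprodI.of b * (f p.tail).prod : CoprodI B) =
          (CoprodI.Word.rcons (⟨b, f p.tail, by rw [hfidx]; exact p.fstIdx_ne⟩ :
            CoprodI.Word.Pair B i)).prod := by
        rw [CoprodI.Word.prod_rcons]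
      have h2 : ∀ w : CoprodI.Word B, CoprodI.Word.equiv w.prod = w :=
        fun w => CoprodI.Word.equiv.apply_symm_apply w
      rw [h1, h2, hDcons]
      change CoprodI.of (α i b) * D (f p.tail) = g
      rw [hDf, hα i _ b hb, ← CoprodI.Word.prod_rcons, hp, ← CoprodI.Word.equivPair_symm,
        Equiv.symm_apply_apply, hg]
  refine ⟨φ, ?_, ?_, ?_⟩
  · -- connected
    intro g
    refine ⟨⟨_, Or.inl rfl⟩, ?_⟩
    intro X hX hXne hXcl
    set w := CoprodI.Word.equiv g with hw
    have hpart : ∀ i, (∃ b ∈ V i (CoprodI.Word.equivPair i w).head,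
        (CoprodI.of b * (f (CoprodI.Word.equivPair i w).tail).prod : CoprodI B) ∈ X) →
        ∀ b ∈ V i (CoprodI.Word.equivPair i w).head,
        (CoprodI.of b * (f (CoprodI.Word.equivPair i w).tail).prod : CoprodI B) ∈ X := by
      rintro i ⟨b, hb, hbX⟩ b' hb'
      have h1 := ((hM i).1 (CoprodI.Word.equivPair i w).head).2
        {b | b ∈ V i (CoprodI.Word.equivPair i w).head ∧
          (CoprodI.of b * (f (CoprodI.Word.equivPair i w).tail).prod : CoprodI B) ∈ X}
        (fun b hb => hb.1) ⟨b, hb, hbX⟩ (by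
          rintro c ⟨hc, hcX⟩ d hd hcd
          refine ⟨hd, hXcl _ hcX _ (Or.inr ⟨i, d, hd, rfl⟩) (part_adj T hcd _)⟩)
      exact (h1 hb').2
    have hc : (f w).prod ∈ X := by
      obtain ⟨y, hy⟩ := hXne
      rcases hX hy with rfl | ⟨i, b, hb, rfl⟩
      · exact hy
      · rw [hprod i w]
        exact hpart i ⟨b, hb, hy⟩ _ (hrV i _)
    rintro y (rfl | ⟨i, b, hb, rfl⟩)
    · exact hc
    · refine hpart i ⟨r i (CoprodI.Word.equivPair i w).head, hrV i _, ?_⟩ b hb
      rw [← hprod i w]
      exact hc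
  · -- disjoint
    intro g g' y h1 h2
    rw [← hdec g y h1, hdec g' y h2]
  · -- edges
    have key : ∀ (g : CoprodI A) (i : ι), ∀ s ∈ S i,
        ∃ a ∈ φ g, ∃ b ∈ φ (CoprodI.of s * g), (cayL (US T)).Adj a b := by
      intro g i s hs
      set p := CoprodI.Word.equivPair i (CoprodI.Word.equiv g) with hp
      have hadj : (cayL (S i)).Adj p.head (s * p.head) := by
        rw [cayL_adj]
        refine ⟨?_, Or.inl (by rw [mul_inv_cancel_right]; exact hs)⟩
        intro h
        have h1 : s = 1 := by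
          have h2 : 1 * p.head = s * p.head := by rw [one_mul]; exact h
          exact (mul_right_cancel h2).symm
        exact (hS i).2.2 (h1 ▸ hs)
      obtain ⟨b, hb, b', hb', hbb⟩ := (hM i).2.2 _ _ hadj
      have he : CoprodI.Word.equivPair i (CoprodI.Word.equiv (CoprodI.of s * g)) =
          ⟨s * p.head, p.tail, p.fstIdx_ne⟩ := by
        have h1 : CoprodI.Word.equiv (CoprodI.of s * g) =
            (CoprodI.of s : CoprodI A) • CoprodI.Word.equiv g := by
          change (CoprodI.of s * g : CoprodI A) • (CoprodI.Word.empty : CoprodI.Word A) = _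
          rw [mul_smul]
          rfl
        rw [h1, CoprodI.Word.equivPair_smul_same]
      refine ⟨_, Or.inr ⟨i, b, hb, rfl⟩, _, Or.inr ⟨i, b', ?_, rfl⟩, ?_⟩
      · rw [he]
        exact hb'
      · rw [he]
        exact part_adj T hbb _
    intro g g' hgg
    rw [cayL_adj] at hgg
    rcases hgg.2 with ⟨i, s, hs, he⟩ | ⟨i, s, hs, he⟩
    · have h1 : g' = CoprodI.of s * g := by rw [← he, inv_mul_cancel_right]
      rw [h1]
      exact key g i s hs
    · have h1 : g = CoprodI.of s * g' := by rw [← he, inv_mul_cancel_right]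
      obtain ⟨a, ha, b, hb, hab⟩ := key g' i s hs
      rw [h1]
      exact ⟨b, hb, a, ha, hab.symm⟩

end Pool.Agent.Helper66.FP
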